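import Mathlib

/-! UB-DAT: elementary estimates. -/

set_option autoImplicit false

namespace Pool.Agent.W565.UB

open Finset Filter Topology

theorem tlog : Tendsto (fun N : ℕ => Real.log (N : ℝ)) atTop atTop :=
  Real.tendsto_log_atTop.comp tendsto_natCast_atTop_atTop

theorem evlog (C : ℝ) : ∀ᶠ N : ℕ in atTop, C ≤ Real.log (N : ℝ) :=
  tlog.eventually_ge_atTop C

theorem evrpow (s : ℝ) (hs : 0 < s) (C : ℝ) : ∀ᶠ N : ℕ in atTop, C ≤ (N : ℝ) ^ s :=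
  ((tendsto_rpow_atTop hs).comp tendsto_natCast_atTop_atTop).eventually_ge_atTop C

/-- the facts on the level `z` -/
structure ZF (ε₀ : ℝ) (N z : ℕ) : Prop where
  lo : (N : ℝ) ^ (1 / 4 + ε₀ / 8) ≤ z
  up : (z : ℝ) ≤ ((2 * N : ℕ) : ℝ) ^ (1 / 4 + ε₀ / 8)
  one : 1 ≤ z
  z2 : ((z ^ 2 : ℕ) : ℝ) ≤ ((2 * N : ℕ) : ℝ) ^ (1 / 2 + ε₀ / 4)
  z3 : 4 * z ≤ N
  z4 : z ≤ 2 * N
  z5 : z ^ 2 ≤ 2 * N
  e8 : (N : ℝ) ^ (1 / 8 : ℝ) ≤ z
  lg : (1 / 4 + ε₀ / 8) * Real.log N ≤ Real.log z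

theorem zf_ev (ε₀ : ℝ) (h0 : 0 < ε₀) (h1 : ε₀ ≤ 1 / 100) : ∀ᶠ N : ℕ in atTop,
    ZF ε₀ N ⌊((2 * N : ℕ) : ℝ) ^ (1 / 4 + ε₀ / 8)⌋₊ := by
  have hs : 0 < 1 / 4 + ε₀ / 8 := by linarith
  filter_upwards [evrpow _ hs 8, eventually_ge_atTop 64] with N hN hN64
  have hNr : (64 : ℝ) ≤ N := by exact_mod_cast hN64
  have hN0 : (0 : ℝ) < N := by linarith
  have hN1 : (1 : ℝ) ≤ N := by linarith
  have hc : ((2 * N : ℕ) : ℝ) = 2 * (N : ℝ) := by push_cast; ring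
  set s : ℝ := 1 / 4 + ε₀ / 8 with hsd
  have hs12 : s ≤ 1 / 2 := by rw [hsd]; linarith
  have h2N1 : (1 : ℝ) ≤ ((2 * N : ℕ) : ℝ) := by rw [hc]; linarith
  have h2N0 : (0 : ℝ) < ((2 * N : ℕ) : ℝ) := by linarith
  set z : ℕ := ⌊((2 * N : ℕ) : ℝ) ^ s⌋₊ with hz
  have hpos : (0 : ℝ) ≤ ((2 * N : ℕ) : ℝ) ^ s := by positivity
  have hup : (z : ℝ) ≤ ((2 * N : ℕ) : ℝ) ^ s := Nat.floor_le hpos
  have hlt : ((2 * N : ℕ) : ℝ) ^ s < z + 1 := Nat.lt_floor_add_one _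
  have h2s : (9 / 8 : ℝ) ≤ (2 : ℝ) ^ s := by
    have h3 : (2 : ℝ) ^ (1 / 4 : ℝ) ≤ (2 : ℝ) ^ s :=
      Real.rpow_le_rpow_of_exponent_le (by norm_num) (by rw [hsd]; linarith)
    refine le_trans ?_ h3
    have h4 : ((9 / 8 : ℝ) ^ (4 : ℕ)) ≤ 2 := by norm_num
    have h5 : (9 / 8 : ℝ) = ((9 / 8 : ℝ) ^ (4 : ℕ)) ^ (1 / 4 : ℝ) := by
      rw [← Real.rpow_natCast, ← Real.rpow_mul (by norm_num)]
      norm_num
    rw [h5]
    exact Real.rpow_le_rpow (by norm_num) h4 (by norm_num)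
  have hsplit : ((2 * N : ℕ) : ℝ) ^ s = (2 : ℝ) ^ s * (N : ℝ) ^ s := by
    rw [hc, Real.mul_rpow (by norm_num) hN0.le]
  have hNs : (0 : ℝ) < (N : ℝ) ^ s := by positivity
  have hlo : (N : ℝ) ^ s ≤ z := by
    have h3 : (9 / 8) * (N : ℝ) ^ s ≤ ((2 * N : ℕ) : ℝ) ^ s := by
      rw [hsplit]
      gcongr
    linarith
  have hz1r : (1 : ℝ) ≤ z := by linarith
  have hz1 : 1 ≤ z := by exact_mod_cast hz1r
  have hsq : ((z ^ 2 : ℕ) : ℝ) ≤ ((2 * N : ℕ) : ℝ) ^ (1 / 2 + ε₀ / 4) := by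
    push_cast
    have h3 : ((2 * (N : ℝ))) ^ (1 / 2 + ε₀ / 4) = ((2 * (N : ℝ)) ^ s) ^ 2 := by
      rw [← Real.rpow_natCast, ← Real.rpow_mul (by positivity)]
      congr 1
      rw [hsd]
      push_cast
      ring
    rw [h3]
    rw [hc] at hup
    gcongr
  have hz2N : (z : ℝ) ^ 2 ≤ 2 * N := by
    have h3 : ((2 * N : ℕ) : ℝ) ^ (1 / 2 + ε₀ / 4) ≤ ((2 * N : ℕ) : ℝ) ^ (1 : ℝ) :=
      Real.rpow_le_rpow_of_exponent_le h2N1 (by linarith)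
    rw [Real.rpow_one] at h3
    have h4 := hsq.trans h3
    push_cast at h4
    linarith
  have h4z : 4 * (z : ℝ) ≤ N := by
    by_contra hcon
    push Not at hcon
    have h5 : (N : ℝ) ^ 2 < (4 * z) ^ 2 := by
      apply pow_lt_pow_left₀ hcon hN0.le (by norm_num)
    nlinarith
  refine ⟨hlo, hup, hz1, hsq, by exact_mod_cast h4z, ?_, ?_, ?_, ?_⟩
  · have : (z : ℝ) ≤ 2 * N := by linarith
    exact_mod_cast this
  · have : ((z ^ 2 : ℕ) : ℝ) ≤ ((2 * N : ℕ) : ℝ) := by push_cast; exact hz2N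
    exact_mod_cast this
  · refine le_trans ?_ hlo
    exact Real.rpow_le_rpow_of_exponent_le hN1 (by rw [hsd]; linarith)
  · rw [← Real.log_rpow hN0]
    exact Real.log_le_log hNs hlo

/-- few prime factors of rough numbers -/
theorem omega_rough (N d : ℕ) (ε₁ : ℝ) (hN : 2 ≤ N) (he : 0 < ε₁) (hd1 : 1 ≤ d) (hd : d ≤ 2 * N)
    (h : ∀ p : ℕ, p.Prime → p ∣ d → ((2 * N : ℕ) : ℝ) ^ ε₁ < (p : ℝ)) :
    d.primeFactors.card ≤ ⌈2 / ε₁⌉₊ := by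
  have hc : ((2 * N : ℕ) : ℝ) = 2 * (N : ℝ) := by push_cast; ring
  have hNr : (2 : ℝ) ≤ N := by exact_mod_cast hN
  have h2N1 : (1 : ℝ) < ((2 * N : ℕ) : ℝ) := by rw [hc]; linarith
  have h2N0 : (0 : ℝ) < ((2 * N : ℕ) : ℝ) := by linarith
  have hr : (0 : ℝ) < ((2 * N : ℕ) : ℝ) ^ ε₁ := by positivity
  have h1 : (((2 * N : ℕ) : ℝ) ^ ε₁) ^ d.primeFactors.card ≤ d := by
    have h2 : (((2 * N : ℕ) : ℝ) ^ ε₁) ^ d.primeFactors.card ≤ ∏ p ∈ d.primeFactors, (p : ℝ) := by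
      rw [← Finset.prod_const]
      apply Finset.prod_le_prod
      · intro p _
        exact hr.le
      · intro p hp
        rw [Nat.mem_primeFactors] at hp
        exact (h p hp.1 hp.2.1).le
    refine h2.trans ?_
    have h3 : ∏ p ∈ d.primeFactors, p ≤ d :=
      Nat.le_of_dvd (by omega) (Nat.prod_primeFactors_dvd d)
    rw [← Nat.cast_prod]
    exact_mod_cast h3
  have h2 : (((2 * N : ℕ) : ℝ) ^ ε₁) ^ d.primeFactors.card ≤ ((2 * N : ℕ) : ℝ) := by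
    refine h1.trans ?_
    exact_mod_cast hd
  have h3 : ((2 * N : ℕ) : ℝ) ^ (ε₁ * d.primeFactors.card) ≤ ((2 * N : ℕ) : ℝ) ^ (1 : ℝ) := by
    rw [Real.rpow_mul h2N0.le, Real.rpow_natCast, Real.rpow_one]
    exact h2
  have h4 : ε₁ * d.primeFactors.card ≤ 1 := (Real.rpow_le_rpow_left_iff h2N1).1 h3
  have h5 : (d.primeFactors.card : ℝ) ≤ 2 / ε₁ := by
    rw [le_div_iff₀ he]
    linarith
  exact_mod_cast h5.trans (Nat.le_ceil _)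

end Pool.Agent.W565.UB
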